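import Mathlib
import Pool.Agent.N541.HC.Stm2

/-!
# Task L: a decreasing sequence of rates
-/

open Filter Topology

namespace Pool.Agent.N20.HC

theorem exists_l0 (Q : ℕ → ℝ) (C c : ℝ) (hc : 0 < c) (h1 : ∀ n, Q n < 1)
    (h2 : ∀ n, Q n ≤ C * Real.exp (-(c * 4 ^ n))) :
    ∃ l : ℝ, 0 < l ∧ ∀ n, Q n ≤ Real.exp (-(2 * l * 4 ^ n)) := by
  have ht : Tendsto (fun n : ℕ => Real.exp (c / 2 * 4 ^ n)) atTop atTop := by
    apply Real.tendsto_exp_atTop.comp
    apply Tendsto.const_mul_atTop (by positivity)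
    exact tendsto_pow_atTop_atTop_of_one_lt (by norm_num)
  obtain ⟨N, hN⟩ := (ht.eventually_ge_atTop C).exists_forall_of_atTop
  have hev : ∀ n, ∀ᶠ l : ℝ in 𝓝[>] 0, Q n < Real.exp (-(2 * l * 4 ^ n)) := by
    intro n
    have hcont : Tendsto (fun l : ℝ => Real.exp (-(2 * l * 4 ^ n))) (𝓝[>] 0) (𝓝 1) := by
      have h0 : Continuous fun l : ℝ => Real.exp (-(2 * l * 4 ^ n)) := by fun_prop
      have h := (h0.tendsto 0).mono_left (nhdsWithin_le_nhds (s := Set.Ioi (0 : ℝ)))
      simpa using h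
    exact hcont.eventually_const_lt (h1 n)
  have hfin : ∀ᶠ l : ℝ in 𝓝[>] 0, ∀ n ∈ Finset.range N, Q n < Real.exp (-(2 * l * 4 ^ n)) :=
    (Finset.eventually_all _).2 fun n _ => hev n
  have hsmall : ∀ᶠ l : ℝ in 𝓝[>] 0, l < c / 4 :=
    nhdsWithin_le_nhds (Iio_mem_nhds (by positivity))
  obtain ⟨l, ⟨hl1, hl2⟩, hl3⟩ := ((hfin.and hsmall).and self_mem_nhdsWithin).exists
  refine ⟨l, hl3, fun n => ?_⟩
  rcases lt_or_ge n N with h | h
  · exact (hl1 n (Finset.mem_range.2 h)).le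
  · refine (h2 n).trans ?_
    have h3 := hN n h
    have h4 : (0 : ℝ) < 4 ^ n := by positivity
    calc C * Real.exp (-(c * 4 ^ n)) ≤ Real.exp (c / 2 * 4 ^ n) * Real.exp (-(c * 4 ^ n)) := by
          gcongr
      _ = Real.exp (-(c / 2 * 4 ^ n)) := by rw [← Real.exp_add]; ring_nf
      _ ≤ Real.exp (-(2 * l * 4 ^ n)) := by
          apply Real.exp_le_exp.2
          nlinarith

/-- the Weierstrass product inequality -/
theorem one_sub_sum_le_prod (δ : ℕ → ℝ) (h0 : ∀ n, 0 ≤ δ n) (h1 : ∀ n, δ n ≤ 1) (n : ℕ) :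
    1 - ∑ k ∈ Finset.range n, δ k ≤ ∏ k ∈ Finset.range n, (1 - δ k) := by
  induction n with
  | zero => simp
  | succ n ih =>
    rw [Finset.sum_range_succ, Finset.prod_range_succ]
    have h2 : ∏ k ∈ Finset.range n, (1 - δ k) ≤ 1 :=
      Finset.prod_le_one (fun k _ => by linarith [h1 k]) (fun k _ => by linarith [h0 k])
    nlinarith [h0 n, h1 n, mul_le_mul_of_nonneg_right ih (by linarith [h1 n] : 0 ≤ 1 - δ n),
      mul_le_mul_of_nonneg_left h2 (h0 n)]

theorem prod_lower (δ : ℕ → ℝ) (h0 : ∀ n, 0 ≤ δ n) (h1 : ∀ n, δ n < 1) (hs : Summable δ) :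
    ∃ p : ℝ, 0 < p ∧ ∀ n, p ≤ ∏ k ∈ Finset.range n, (1 - δ k) := by
  have ht : Tendsto (fun i : ℕ => ∑' k, δ (k + i)) atTop (𝓝 0) := tendsto_sum_nat_add δ
  obtain ⟨N, hN⟩ := (ht.eventually_lt_const (u := 1 / 2) (by norm_num)).exists
  have hpos : ∀ n, 0 < ∏ k ∈ Finset.range n, (1 - δ k) := fun n =>
    Finset.prod_pos fun k _ => by linarith [h1 k]
  have hanti : Antitone fun n => ∏ k ∈ Finset.range n, (1 - δ k) := by
    refine antitone_nat_of_succ_le fun n => ?_
    rw [Finset.prod_range_succ]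
    nlinarith [hpos n, h0 n]
  refine ⟨(∏ k ∈ Finset.range N, (1 - δ k)) * (1 / 2), by have := hpos N; positivity, fun n => ?_⟩
  have hbig : ∀ m, (∏ k ∈ Finset.range N, (1 - δ k)) * (1 / 2) ≤
      ∏ k ∈ Finset.range (N + m), (1 - δ k) := by
    intro m
    rw [Finset.prod_range_add]
    refine mul_le_mul_of_nonneg_left ?_ (hpos N).le
    have h2 := one_sub_sum_le_prod (fun k => δ (N + k)) (fun k => h0 _) (fun k => (h1 _).le) m
    have h3 : ∑ k ∈ Finset.range m, δ (N + k) ≤ ∑' k, δ (k + N) := by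
      have h4 : Summable fun k => δ (k + N) := (summable_nat_add_iff N).2 hs
      refine le_trans (le_of_eq ?_) (h4.sum_le_tsum (Finset.range m) fun k _ => h0 _)
      exact Finset.sum_congr rfl fun k _ => by rw [add_comm]
    linarith
  exact (hbig n).trans (hanti (Nat.le_add_left n N))

theorem taskL : Pool.Agent.N541.HC.TaskL := by
  intro Q C c hc hQ0 hQ1 hQ2
  obtain ⟨l0, hl0, hQ⟩ := exists_l0 Q C c hc hQ1 hQ2
  set δ : ℕ → ℝ := fun n => Real.exp (-(l0 * 4 ^ (n + 1))) with hδ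
  have hδ0 : ∀ n, 0 < δ n := fun n => Real.exp_pos _
  have hδ1 : ∀ n, δ n < 1 := by
    intro n
    rw [hδ]
    simp only
    rw [Real.exp_lt_one_iff]
    have : (0 : ℝ) < 4 ^ (n + 1) := by positivity
    nlinarith
  have hs : Summable δ := by
    have h1 : Summable fun n : ℕ => Real.exp (-l0) ^ n :=
      summable_geometric_of_lt_one (Real.exp_pos _).le (by rw [Real.exp_lt_one_iff]; linarith)
    refine Summable.of_nonneg_of_le (fun n => (hδ0 n).le) (fun n => ?_) h1
    rw [hδ, ← Real.exp_nat_mul]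
    apply Real.exp_le_exp.2
    have h2 : (n : ℝ) ≤ 4 ^ (n + 1) := by
      have h3 : n < 4 ^ n := Nat.lt_pow_self (by norm_num)
      have h4 : n ≤ 4 ^ (n + 1) := by rw [pow_succ]; omega
      exact_mod_cast h4
    nlinarith
  obtain ⟨p, hp, hpl⟩ := prod_lower δ (fun n => (hδ0 n).le) hδ1 hs
  set lam : ℕ → ℝ := fun n => l0 * ∏ k ∈ Finset.range n, (1 - δ k) with hlam
  have hle : ∀ n, lam n ≤ l0 := by
    intro n
    have h1 : ∏ k ∈ Finset.range n, (1 - δ k) ≤ 1 :=
      Finset.prod_le_one (fun k _ => by linarith [hδ1 k]) (fun k _ => by linarith [hδ0 k])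
    rw [hlam]
    simp only
    nlinarith
  have hpos : ∀ n, 0 < lam n := by
    intro n
    have h1 : 0 < ∏ k ∈ Finset.range n, (1 - δ k) := lt_of_lt_of_le hp (hpl n)
    rw [hlam]
    simp only
    positivity
  have hsucc : ∀ n, lam (n + 1) = lam n * (1 - δ n) := by
    intro n
    rw [hlam]
    simp only
    rw [Finset.prod_range_succ]
    ring
  refine ⟨lam, l0 * p, by positivity, fun n => ?_, hQ0, hQ1, hpos, ?_, ?_⟩
  · exact mul_le_mul_of_nonneg_left (hpl n) hl0.le
  · refine (hQ 0).trans (Real.exp_le_exp.2 ?_)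
    have h1 := hle 0
    simp only [pow_zero, mul_one]
    linarith
  · intro n x hx1 hx2
    have h1 := hle n
    have h2 := hpos n
    have h3 := hQ (n + 1)
    set q := Q (n + 1) with hq
    set a := lam n with ha
    have hd : lam (n + 1) = a - a * δ n := by rw [hsucc]; ring
    rw [hd]
    have h4 : 0 ≤ q := hQ0 _
    -- `q ≤ e^{-a x} δ`
    have h5 : q ≤ Real.exp (-(a * x)) * δ n := by
      refine h3.trans ?_
      rw [hδ]
      simp only
      rw [← Real.exp_add]
      apply Real.exp_le_exp.2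
      have h6 : (0 : ℝ) < 4 ^ (n + 1) := by positivity
      nlinarith [mul_le_mul h1 hx2 (by linarith) hl0.le]
    have h6 : 1 - Real.exp (-(a * x)) ≤ a * x := by
      linarith [Real.add_one_le_exp (-(a * x))]
    have h7 : a * δ n * x ≤ Real.exp (a * δ n * x) - 1 := by
      linarith [Real.add_one_le_exp (a * δ n * x)]
    have h8 : Real.exp (-((a - a * δ n) * x)) = Real.exp (-(a * x)) * Real.exp (a * δ n * x) := by
      rw [← Real.exp_add]
      ring_nf
    rw [h8]
    have h9 : 0 < Real.exp (-(a * x)) := Real.exp_pos _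
    have h10 : 0 ≤ a * x := by positivity
    have h11 : q * (1 - Real.exp (-(a * x))) ≤ q * (a * x) := mul_le_mul_of_nonneg_left h6 h4
    have h12 : q * (a * x) ≤ Real.exp (-(a * x)) * δ n * (a * x) :=
      mul_le_mul_of_nonneg_right h5 h10
    have h13 : Real.exp (-(a * x)) * (a * δ n * x) ≤
        Real.exp (-(a * x)) * (Real.exp (a * δ n * x) - 1) := mul_le_mul_of_nonneg_left h7 h9.le
    nlinarith

end Pool.Agent.N20.HC
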