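import Mathlib
import Pool.Agent.N541.HC.Rect

/-!
# Task R: rectangles in the hierarchical squares
-/

open Pool.Agent.N989.MK Pool.Agent.N541.HC

namespace Pool.Agent.N20.HC

set_option linter.unusedSimpArgs false

section

variable {G : Type*} [Group G]

/-- partial products along a side -/
def psd {n : ℕ} (V : BE n → G) (i : Fin 4) (x : ℕ) : G :=
  ((List.ofFn fun k => V (i, k)).take x).prod

theorem take_pos {n : ℕ} (a : Fin (2 ^ (n + 1)) → G) (x : ℕ) :
    ((List.ofFn a).take x).prod =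
      ((List.ofFn fun k : Fin (2 ^ n) => a (pos 0 k)).take (min x (2 ^ n))).prod *
        ((List.ofFn fun k : Fin (2 ^ n) => a (pos 1 k)).take (x - 2 ^ n)).prod := by
  have h1 : 2 ^ (n + 1) = 2 ^ n + 2 ^ n := by rw [pow_succ]; omega
  have h2 : List.ofFn a = List.ofFn (fun k : Fin (2 ^ n + 2 ^ n) => a (Fin.cast h1.symm k)) := by
    rw [List.ofFn_congr h1]
  rw [h2, List.ofFn_add, List.take_append, List.prod_append, List.length_ofFn]
  have e1 : (List.ofFn fun i : Fin (2 ^ n) => a (Fin.cast h1.symm (Fin.castAdd (2 ^ n) i))) =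
      List.ofFn fun k : Fin (2 ^ n) => a (pos 0 k) := by
    refine congrArg List.ofFn (funext fun k => congrArg a (Fin.ext ?_))
    simp [pos]
  have e2 : (List.ofFn fun i : Fin (2 ^ n) => a (Fin.cast h1.symm (Fin.natAdd (2 ^ n) i))) =
      List.ofFn fun k : Fin (2 ^ n) => a (pos 1 k) := by
    refine congrArg List.ofFn (funext fun k => congrArg a (Fin.ext ?_))
    simp [pos, add_comm]
  have e3 : (List.ofFn fun k : Fin (2 ^ n) => a (pos 0 k)).take (min x (2 ^ n)) =
      (List.ofFn fun k : Fin (2 ^ n) => a (pos 0 k)).take x := by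
    rw [← List.take_take, List.take_of_length_le (l := List.ofFn _) (by simp)]
  rw [e3]
  simp only [Fin.cast] at e1 e2 ⊢
  exact congrArg₂ (· * ·) (congrArg (fun l => (List.take x l).prod) e1)
    (congrArg (fun l => (List.take (x - 2 ^ n) l).prod) e2)

theorem psd_succ {n : ℕ} (V : BE (n + 1) → G) (i : Fin 4) (x : ℕ) :
    psd V i x = ((List.ofFn fun k : Fin (2 ^ n) => V (i, pos 0 k)).take (min x (2 ^ n))).prod *
        ((List.ofFn fun k : Fin (2 ^ n) => V (i, pos 1 k)).take (x - 2 ^ n)).prod :=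
  take_pos (fun k => V (i, k)) x

theorem psd_full {n : ℕ} (V : BE n → G) (i : Fin 4) : psd V i (2 ^ n) = sd V i := by
  unfold psd sd
  rw [List.take_of_length_le (by simp)]

theorem hp_zero (n : ℕ) : ∀ (σ : Sec n) (U : Ed n → G) (y : ℕ), hp n σ U 0 y = 1 := by
  induction n with
  | zero => intro σ U y; simp [hp]
  | succ n ih =>
    rintro ⟨s, σ⟩ U y
    simp [hp, ih]

theorem vp_zero (n : ℕ) : ∀ (σ : Sec n) (U : Ed n → G) (x : ℕ), vp n σ U x 0 = 1 := by
  induction n with
  | zero => intro σ U y; simp [vp]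
  | succ n ih =>
    rintro ⟨s, σ⟩ U y
    simp [vp, ih]

/-- the lines on the boundary -/
theorem bdry (n : ℕ) : ∀ (σ : Sec n) (U : Ed n → G) (x : ℕ), x ≤ 2 ^ n →
    hp n σ U x 0 = psd (fun e => U (.inl e)) 0 x ∧
    hp n σ U x (2 ^ n) = psd (fun e => U (.inl e)) 2 x ∧
    vp n σ U 0 x = psd (fun e => U (.inl e)) 3 x ∧
    vp n σ U (2 ^ n) x = psd (fun e => U (.inl e)) 1 x := by
  induction n with
  | zero =>
    intro σ U x hx
    have hx' : x = 0 ∨ x = 1 := by simp at hx; omega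
    rcases hx' with rfl | rfl
    · simp [hp, vp, psd]
    · simp [hp, vp, psd]
  | succ n ih =>
    rintro ⟨s, σ⟩ U x hx
    have h2 : 2 ^ (n + 1) = 2 ^ n + 2 ^ n := by rw [pow_succ]; omega
    have hpos : 0 < 2 ^ n := by positivity
    have hm : min x (2 ^ n) ≤ 2 ^ n := min_le_right _ _
    have hs : x - 2 ^ n ≤ 2 ^ n := by omega
    have hnot : ¬ (2 ^ (n + 1) ≤ 2 ^ n) := by omega
    have hsub : 2 ^ (n + 1) - 2 ^ n = 2 ^ n := by omega
    refine ⟨?_, ?_, ?_, ?_⟩
    · rw [psd_succ]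
      simp only [hp, Nat.zero_le, if_true]
      rw [(ih (σ 0) _ _ hm).1, (ih (σ 1) _ _ hs).1]
      rfl
    · rw [psd_succ]
      simp only [hp, if_neg hnot, hsub]
      rw [(ih (σ 2) _ _ hm).2.1, (ih (σ 3) _ _ hs).2.1]
      rfl
    · rw [psd_succ]
      simp only [vp, Nat.zero_le, if_true]
      rw [(ih (σ 0) _ _ hm).2.2.1, (ih (σ 2) _ _ hs).2.2.1]
      rfl
    · rw [psd_succ]
      simp only [vp, if_neg hnot, hsub]
      rw [(ih (σ 1) _ _ hm).2.2.2, (ih (σ 3) _ _ hs).2.2.2]
      rfl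

/-- common sides of the quarters -/
theorem common {n : ℕ} (s : Fin 4) (σ : Fin 4 → Sec n) (U : Ed (n + 1) → G) (x : ℕ)
    (hx : x ≤ 2 ^ n) :
    vp n (σ 1) (fun e => U (emb s 1 e)) 0 x = vp n (σ 0) (fun e => U (emb s 0 e)) (2 ^ n) x ∧
    hp n (σ 2) (fun e => U (emb s 2 e)) x 0 = hp n (σ 0) (fun e => U (emb s 0 e)) x (2 ^ n) ∧
    hp n (σ 3) (fun e => U (emb s 3 e)) x 0 = hp n (σ 1) (fun e => U (emb s 1 e)) x (2 ^ n) ∧
    vp n (σ 3) (fun e => U (emb s 3 e)) 0 x = vp n (σ 2) (fun e => U (emb s 2 e)) (2 ^ n) x := by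
  refine ⟨?_, ?_, ?_, ?_⟩
  · rw [(bdry n (σ 1) _ _ hx).2.2.1, (bdry n (σ 0) _ _ hx).2.2.2]; rfl
  · rw [(bdry n (σ 2) _ _ hx).1, (bdry n (σ 0) _ _ hx).2.1]; rfl
  · rw [(bdry n (σ 3) _ _ hx).1, (bdry n (σ 1) _ _ hx).2.1]; rfl
  · rw [(bdry n (σ 3) _ _ hx).2.2.1, (bdry n (σ 2) _ _ hx).2.2.2]; rfl

end

theorem rectFull (G : Type*) [Group G] : RectFull G := by
  intro n σ U
  unfold rect Pool.Agent.N989.MK.lp
  have h := bdry n σ U (2 ^ n) le_rfl
  rw [h.1, h.2.1, h.2.2.1, h.2.2.2, psd_full, psd_full, psd_full, psd_full]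

theorem rectSucc (G : Type*) [Group G] : RectSucc G := by
  intro n s σ U a b ha hb
  have h2 : 2 ^ (n + 1) = 2 ^ n + 2 ^ n := by rw [pow_succ]; omega
  have hH := (bdry n (σ 0) (fun e => U (emb s 0 e)) (2 ^ n) le_rfl)
  rw [psd_full, psd_full, psd_full, psd_full] at hH
  rw [← hH.1, ← hH.2.1, ← hH.2.2.1]
  rcases le_or_gt a (2 ^ n) with h | h <;> rcases le_or_gt b (2 ^ n) with h' | h'
  · have e1 : a - 2 ^ n = 0 := by omega
    have e2 : b - 2 ^ n = 0 := by omega
    simp only [rect, hp, vp, if_pos h, if_pos h', Nat.zero_le, if_true, min_eq_left h,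
      min_eq_left h', e1, e2, hp_zero, vp_zero]
    simp only [mul_one, one_mul, inv_one, mul_inv_rev, mul_assoc, mul_inv_cancel, inv_mul_cancel,
      mul_inv_cancel_left, inv_mul_cancel_left]
  · have e1 : a - 2 ^ n = 0 := by omega
    have e3 : b - 2 ^ n ≤ 2 ^ n := by omega
    simp only [rect, hp, vp, if_pos h, if_neg h'.not_ge, Nat.zero_le, if_true, min_eq_left h,
      min_eq_right h'.le, e1, hp_zero, vp_zero]
    rw [(common s σ U a h).2.1]
    simp only [mul_one, one_mul, inv_one, mul_inv_rev, mul_assoc, mul_inv_cancel, inv_mul_cancel,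
      mul_inv_cancel_left, inv_mul_cancel_left]
  · have e2 : b - 2 ^ n = 0 := by omega
    have e3 : a - 2 ^ n ≤ 2 ^ n := by omega
    simp only [rect, hp, vp, if_neg h.not_ge, if_pos h', Nat.zero_le, if_true, min_eq_right h.le,
      min_eq_left h', e2, hp_zero, vp_zero]
    rw [(common s σ U b h').1]
    simp only [mul_one, one_mul, inv_one, mul_inv_rev, mul_assoc, mul_inv_cancel, inv_mul_cancel,
      mul_inv_cancel_left, inv_mul_cancel_left]
  · have e2 : a - 2 ^ n ≤ 2 ^ n := by omega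
    have e3 : b - 2 ^ n ≤ 2 ^ n := by omega
    simp only [rect, hp, vp, if_neg h.not_ge, if_neg h'.not_ge, Nat.zero_le, if_true,
      min_eq_right h.le, min_eq_right h'.le, hp_zero, vp_zero]
    rw [(common s σ U (2 ^ n) le_rfl).1, (common s σ U (2 ^ n) le_rfl).2.1,
      (common s σ U _ e2).2.2.1, (common s σ U _ e3).2.2.2]
    simp only [mul_one, one_mul, inv_one, mul_inv_rev, mul_assoc, mul_inv_cancel, inv_mul_cancel,
      mul_inv_cancel_left, inv_mul_cancel_left]

section

variable {G : Type*} [Group G] [TopologicalSpace G] [IsTopologicalGroup G]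

theorem vp_cont (n : ℕ) : ∀ (σ : Sec n) (x y : ℕ), Continuous fun U : Ed n → G => vp n σ U x y := by
  induction n with
  | zero =>
    intro σ x y
    simp only [vp]
    split_ifs
    · exact continuous_const
    · exact continuous_apply _
    · exact continuous_apply _
  | succ n ih =>
    rintro ⟨s, σ⟩ x y
    have hc : ∀ q, Continuous fun (U : Ed (n + 1) → G) (e : Ed n) => U (emb s q e) := fun q =>
      continuous_pi fun e => continuous_apply _
    simp only [vp]
    split_ifs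
    · exact ((ih _ _ _).comp (hc 0)).mul ((ih _ _ _).comp (hc 2))
    · exact ((ih _ _ _).comp (hc 1)).mul ((ih _ _ _).comp (hc 3))

theorem hp_cont (n : ℕ) : ∀ (σ : Sec n) (x y : ℕ), Continuous fun U : Ed n → G => hp n σ U x y := by
  induction n with
  | zero =>
    intro σ x y
    simp only [hp]
    split_ifs
    · exact continuous_const
    · exact continuous_apply _
    · exact continuous_apply _
  | succ n ih =>
    rintro ⟨s, σ⟩ x y
    have hc : ∀ q, Continuous fun (U : Ed (n + 1) → G) (e : Ed n) => U (emb s q e) := fun q =>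
      continuous_pi fun e => continuous_apply _
    simp only [hp]
    split_ifs
    · exact ((ih _ _ _).comp (hc 0)).mul ((ih _ _ _).comp (hc 1))
    · exact ((ih _ _ _).comp (hc 2)).mul ((ih _ _ _).comp (hc 3))

theorem rect_cont (n : ℕ) (σ : Sec n) (a b : ℕ) :
    Continuous fun U : Ed n → G => rect n σ U a b := by
  unfold rect
  exact (((hp_cont n σ a 0).mul (vp_cont n σ a b)).mul (hp_cont n σ a b).inv).mul
    (vp_cont n σ 0 b).inv

end

end Pool.Agent.N20.HC
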